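/-
MP_ed7341_co, case m = 4: the critical exponent of a GF(q)-representable matroid without
M(K_4)-minor is at most 9 for q at least 4, at most 5 for q at least 2048.
-/
import Pool.Agent.Lib.MP_ed7341_co.Main

set_option autoImplicit false

namespace Pool.Agent.Results.MP_ed7341_co.CriticalExponentK4

/-- the bound, as a function of the order `q` of the field. -/
def bound (q : ℕ) : ℕ :=
  if 2048 ≤ q then 5 else if 41 ≤ q then 6 else if 11 ≤ q then 7 else if 7 ≤ q then 8
  else if 4 ≤ q then 9 else if 3 ≤ q then 11 else 13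

/-- Let `S` be a finite set of nonzero vectors over `GF(q)` whose matroid has no minor isomorphic
to `M(K_4)`. Then `bound q` hyperplanes avoid `S`: its critical exponent is at most `bound q`. -/
theorem result (F : Type) [Field F] [Fintype F] (r : ℕ) (S : Finset (Fin r → F))
    (h0 : (0 : Fin r → F) ∉ S)
    (hS : ¬ ∃ (C : Finset (Fin r → F)) (g : {p : Fin 4 × Fin 4 // p.1 < p.2} → (Fin r → F)),
        C ⊆ S ∧ (∀ e, g e ∈ S) ∧
        ∀ T : Set {p : Fin 4 × Fin 4 // p.1 < p.2},
          (LinearIndependent F (T.restrict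
              (fun e => (Submodule.span F (C : Set (Fin r → F))).mkQ (g e))) ↔
           LinearIndependent F (T.restrict
              (fun e => ((Pi.single e.1.1 (1 : F) : Fin 4 → F) -
                (Pi.single e.1.2 (1 : F) : Fin 4 → F)))))) :
    ∃ f : Fin (bound (Fintype.card F)) → Module.Dual F (Fin r → F), ∀ x ∈ S, ∃ i, f i x ≠ 0 := by
  have hK := MPed7341.specFroz F r S hS
  have hq : 1 < Fintype.card F := Fintype.one_lt_card
  obtain ⟨n9, n8, n7, n6, n5, n2, n3⟩ := MPed7341.specNum
  have key : ∀ k : ℕ, (∃ d, MPed7341.Num (Fintype.card F) k d) →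
      ∃ f : Fin k → Module.Dual F (Fin r → F), ∀ x ∈ S, ∃ i, f i x ≠ 0 := by
    rintro k ⟨d, hd⟩
    exact MPed7341.colour F k d hd (Fin r → F) S hK h0
  apply key
  unfold bound
  split_ifs with h1 h2 h3 h4 h5 h6
  · exact n5 _ h1
  · exact n6 _ h2
  · exact n7 _ h3
  · exact n8 _ h4
  · exact n9 _ h5
  · have : Fintype.card F = 3 := by omega
    rw [this]
    exact n3
  · have : Fintype.card F = 2 := by omega
    rw [this]
    exact n2

end Pool.Agent.Results.MP_ed7341_co.CriticalExponentK4
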