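/-
MP_ed7341_co, all m: c_m(q) is finite, with a bound that is polynomial in q.
-/
import Pool.Agent.Lib.MP_ed7341_co.FG.Main2

set_option autoImplicit false

namespace Pool.Agent.Results.MP_ed7341_co.FiniteForAllM

/-- the bound `2 (4 m L q^2)^(m-3) - 1` with `L = floor (log_2 (q m)) + 1`. -/
def bound (q m : ℕ) : ℕ := 2 * (4 * m * (Nat.log 2 (q * m) + 1) * q ^ 2) ^ (m - 3) - 1

/-- Let `S` be a finite set of nonzero vectors over `GF(q)` whose matroid has no minor isomorphic
to `M(K_m)`, `m ≥ 3`. Then `bound q m` hyperplanes avoid `S`: its critical exponent is at most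
`bound q m`. -/
theorem result (F : Type) [Field F] [Fintype F] (m r : ℕ) (hm : 3 ≤ m)
    (S : Finset (Fin r → F)) (h0 : (0 : Fin r → F) ∉ S)
    (hS : ¬ ∃ (C : Finset (Fin r → F)) (g : {p : Fin m × Fin m // p.1 < p.2} → (Fin r → F)),
        C ⊆ S ∧ (∀ e, g e ∈ S) ∧
        ∀ T : Set {p : Fin m × Fin m // p.1 < p.2},
          (LinearIndependent F (T.restrict
              (fun e => (Submodule.span F (C : Set (Fin r → F))).mkQ (g e))) ↔
           LinearIndependent F (T.restrict
              (fun e => ((Pi.single e.1.1 (1 : F) : Fin m → F) -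
                (Pi.single e.1.2 (1 : F) : Fin m → F)))))) :
    ∃ f : Fin (bound (Fintype.card F) m) → Module.Dual F (Fin r → F),
      ∀ x ∈ S, ∃ i, f i x ≠ 0 :=
  MPed7341.KM.final F m r hm S h0 hS

end Pool.Agent.Results.MP_ed7341_co.FiniteForAllM
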