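/-
MP_ed7341_co: Whittle's conjecture for frame geometries (subgeometries of Dowling geometries) and
a bound for their lifts.
-/
import Pool.Agent.Lib.MP_ed7341_co.FG.Main2

set_option autoImplicit false

namespace Pool.Agent.Results.MP_ed7341_co.FrameGeometries

/-- Let `K` be a set of `k` coordinates and `S` a finite set of nonzero vectors over `GF(q)`,
each with at most two nonzero coordinates outside `K`, whose matroid has no minor isomorphic to
`M(K_m)`, `m ≥ 3`. Then `c` hyperplanes avoid `S` for every `c` with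
`q^k (q - 1) 2^(m-2) ≤ q^c`, and if `K` is empty then `m - 2` hyperplanes avoid `S`. -/
theorem result (F : Type) [Field F] [Fintype F] [DecidableEq F] (m r c : ℕ)
    (K : Finset (Fin r)) (hm : 3 ≤ m)
    (hc : (K = ∅ ∧ c = m - 2) ∨
      Fintype.card F ^ K.card * (Fintype.card F - 1) * 2 ^ (m - 2) ≤ Fintype.card F ^ c)
    (S : Finset (Fin r → F)) (h0 : (0 : Fin r → F) ∉ S)
    (hw : ∀ x ∈ S, (Finset.univ.filter (fun i => i ∉ K ∧ x i ≠ 0)).card ≤ 2)
    (hS : ¬ ∃ (C : Finset (Fin r → F)) (g : {p : Fin m × Fin m // p.1 < p.2} → (Fin r → F)),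
        C ⊆ S ∧ (∀ e, g e ∈ S) ∧
        ∀ T : Set {p : Fin m × Fin m // p.1 < p.2},
          (LinearIndependent F (T.restrict
              (fun e => (Submodule.span F (C : Set (Fin r → F))).mkQ (g e))) ↔
           LinearIndependent F (T.restrict
              (fun e => ((Pi.single e.1.1 (1 : F) : Fin m → F) -
                (Pi.single e.1.2 (1 : F) : Fin m → F)))))) :
    ∃ f : Fin c → Module.Dual F (Fin r → F), ∀ x ∈ S, ∃ i, f i x ≠ 0 :=
  MPed7341.FG.lift F m r c K hm hc S h0 hw hS

end Pool.Agent.Results.MP_ed7341_co.FrameGeometries
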