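/-
MP_ed7341_co, case m = 4 (Brylawski): the conjectured value 2 of the critical exponent holds for
rank n if n ^ 8 <= 2 q.
-/
import Pool.Agent.Lib.MP_ed7341_co.Main
import Pool.Agent.Lib.MP_ed7341_co.FR.Crit

set_option autoImplicit false

namespace Pool.Agent.Results.MP_ed7341_co.SmallRank

/-- Let `S` be a finite set of nonzero vectors over `GF(q)` of rank `n` whose matroid has no minor
isomorphic to `M(K_4)`. If `n ^ 8 ≤ 2 q` then two hyperplanes avoid `S`. -/
theorem result (F : Type) [Field F] [Fintype F] (r : ℕ) (S : Finset (Fin r → F))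
    (h0 : (0 : Fin r → F) ∉ S)
    (hS : ¬ ∃ (C : Finset (Fin r → F)) (g : {p : Fin 4 × Fin 4 // p.1 < p.2} → (Fin r → F)),
        C ⊆ S ∧ (∀ e, g e ∈ S) ∧
        ∀ T : Set {p : Fin 4 × Fin 4 // p.1 < p.2},
          (LinearIndependent F (T.restrict
              (fun e => (Submodule.span F (C : Set (Fin r → F))).mkQ (g e))) ↔
           LinearIndependent F (T.restrict
              (fun e => ((Pi.single e.1.1 (1 : F) : Fin 4 → F) -
                (Pi.single e.1.2 (1 : F) : Fin 4 → F))))))
    (hr : Module.finrank F (Submodule.span F (S : Set (Fin r → F))) ^ 8 ≤ 2 * Fintype.card F) :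
    ∃ f : Fin 2 → Module.Dual F (Fin r → F), ∀ x ∈ S, ∃ i, f i x ≠ 0 := by
  classical
  exact MPed7341FR.crit_two S h0 (MPed7341.specFroz F r S hS) hr

end Pool.Agent.Results.MP_ed7341_co.SmallRank
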